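import Pool.Agent.H49.P1
import Pool.Agent.H49.IrrHeight

set_option autoImplicit false

namespace Pool.Agent.Results.MP_e8c887_nt.IrrationalHeight

open Filter Topology Pool.Agent.H49.P1

/-- The Weil height on `P^1(k(t))`: the height of `x / y` with `x, y ∈ k[t]` coprime is
`max (deg x) (deg y)`, and the height of `∞ = [1 : 0]` is `0`. -/
noncomputable def height {k : Type} [Field k] (P : OnePoint (RatFunc k)) : ℕ := P.elim 0 deg

/-- Over `K = k(t)` with `char k = 2` there is a quadratic rational map and a `K`-rational point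
whose canonical height is irrational. -/
theorem result (k : Type) [Field k] [CharP k 2] :
    ∃ (Φ : RatFunc (RatFunc k)) (P : OnePoint (RatFunc k)) (L : ℝ), deg Φ = 2 ∧ Irrational L ∧
      Tendsto (fun n : ℕ => (height ((act Φ)^[n] P) : ℝ) / 2 ^ n) atTop (𝓝 L) := by
  let _ : Algebra (ZMod 2) k := ZMod.algebra k 2
  obtain ⟨L, hL⟩ := Pool.Agent.H49.IrrDyn.exists_limit
  refine ⟨Pool.Agent.H49.IrrHeight.Phi k,
    OnePoint.some (Pool.Agent.H49.IrrHeight.phi k (Pool.Agent.H49.IrrDyn.P 0).1 /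
      Pool.Agent.H49.IrrHeight.phi k (Pool.Agent.H49.IrrDyn.P 0).2), L,
    Pool.Agent.H49.IrrHeight.deg_Phi k, ?_,
    hL.congr (fun n => ?_)⟩
  · rintro ⟨q, rfl⟩
    exact Pool.Agent.H49.IrrDyn.not_rational q hL
  · rw [Pool.Agent.H49.IrrHeight.iter k n, height, OnePoint.elim_some,
      Pool.Agent.H49.IrrHeight.deg_eq]

end Pool.Agent.Results.MP_e8c887_nt.IrrationalHeight
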